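import Pool.Agent.Helper37.KDB.Extra
import Pool.Agent.Helper37.KDB.St.D1
import Pool.Agent.Helper37.KDB.St.D3
import Pool.Agent.Helper37.KDB.St.D10

/-! Project KDB, the piece D11. -/

set_option autoImplicit false

namespace KDB.I.D11

open MeasureTheory KDB
open scoped ENNReal

variable (p : Par)

/-- roundings of close vectors with equal residues are equal -/
lemma rd_same {d : ℕ} (N : ℕ) (c D : ℝ) (hc : 0 < c) (Y Y' : V d) (h1 : ‖Y - Y'‖ ≤ D * c)
    (hN : D + 1 < N) (h : Par.emd N (Par.rd c Y) = Par.emd N (Par.rd c Y')) :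
    Par.rd c Y = Par.rd c Y' := by
  refine eq_of_emd N _ _ h fun i => ?_
  have h2 : |Y i - Y' i| ≤ D * c := by
    have := norm_le_pi_norm (Y - Y') i
    rw [Real.norm_eq_abs, Pi.sub_apply] at this
    exact this.trans h1
  have h3 : |Y i / c - Y' i / c| ≤ D := by
    rw [← sub_div, abs_div, abs_of_pos hc, div_le_iff₀ hc]
    exact h2
  have h4 := abs_sub_round (Y i / c)
  have h5 := abs_sub_round (Y' i / c)
  unfold Par.rd
  rw [abs_le] at h3 h4 h5
  rw [abs_lt]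
  constructor <;> linarith only [hN, h3, h4, h5, h3.1, h3.2, h4.1, h4.2, h5.1, h5.2]

lemma ell_pos (hp : p.Ok) : 1 ≤ (p.ell : ℝ) := by
  have h1 : 1 ≤ p.L := by have := hp.hL; omega
  unfold Par.ell
  exact_mod_cast Nat.one_le_pow _ _ h1

lemma rho_mono (hp : p.Ok) {m k : ℕ} (h : m ≤ k) : p.rho m ≤ p.rho k :=
  pow_le_pow_right₀ (ell_pos p hp) h

lemma L_one (hp : p.Ok) : 1 ≤ (p.L : ℝ) := by
  have h1 : 1 ≤ p.L := by have := hp.hL; omega
  exact_mod_cast h1

lemma eL_one (hp : p.Ok) : 1 ≤ (p.ell : ℝ) * p.L := by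
  have h1 := ell_pos p hp
  have h2 := L_one p hp
  nlinarith

lemma xi_mono (hp : p.Ok) {m k : ℕ} (h : m ≤ k) : p.xi m ≤ p.xi k :=
  pow_le_pow_right₀ (eL_one p hp) h

lemma xi_one (hp : p.Ok) (k : ℕ) : 1 ≤ p.xi k := one_le_pow₀ (eL_one p hp)

lemma rho_one (hp : p.Ok) (k : ℕ) : 1 ≤ p.rho k := one_le_pow₀ (ell_pos p hp)

lemma vs_small (hp : p.Ok) {k : ℕ} (h : k < p.n) : p.vs * (1 + (p.L : ℝ) ^ k) ≤ 1 / 100 := by
  refine le_trans ?_ hp.hvs1
  refine mul_le_mul_of_nonneg_left ?_ hp.hvs.le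
  have := pow_le_pow_right₀ (L_one p hp) h.le
  linarith

/-- the rings see the same lattice point and the same integer correction -/
theorem ring_same (hp : p.Ok) (k m g e e' N : ℕ) (hmk : m ≤ k) (hkn : k < p.n) (C : ℝ)
    (hC : 1 ≤ C) (hN : 12 * C + 12 ≤ N)
    (he : g ≤ e) (he' : g ≤ e') (h1 : e < g + p.tau m) (h2 : e' < g + p.tau m)
    (hAB : (p.inA k e ∧ p.inA k e') ∨ (¬ p.inA k e ∧ ¬ p.inA k e'))
    (x v x' v' y1 y2 y1' y2' : V p.d) (hy1 : ‖y1‖ ≤ 1) (hy2 : ‖y2‖ ≤ 1) (hy1' : ‖y1'‖ ≤ 1)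
    (hy2' : ‖y2'‖ ≤ 1) (hdv : ‖v - v'‖ ≤ C * p.rho m)
    (hdP : ‖(x - (p.h * ((e : ℝ) + 1 - g)) • v) - (x' - (p.h * ((e' : ℝ) + 1 - g)) • v')‖ ≤
      C * p.xi m)
    (hA : Par.emd N (p.rA k e (x - p.vs • y1) (v - p.vs • y2)) =
      Par.emd N (p.rA k e' (x' - p.vs • y1') (v' - p.vs • y2')))
    (hm : Par.emd N (p.rm k e (x - p.vs • y1) (v - p.vs • y2)) =
      Par.emd N (p.rm k e' (x' - p.vs • y1') (v' - p.vs • y2'))) :
    p.rA k e (x - p.vs • y1) (v - p.vs • y2) = p.rA k e' (x' - p.vs • y1') (v' - p.vs • y2') ∧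
    p.rm k e (x - p.vs • y1) (v - p.vs • y2) = p.rm k e' (x' - p.vs • y1') (v' - p.vs • y2') := by
  have hvs := vs_small p hp hkn
  have hvs0 := hp.hvs
  have hLk : (1 : ℝ) ≤ (p.L : ℝ) ^ k := one_le_pow₀ (L_one p hp)
  have hvs1 : p.vs ≤ 1 / 200 := by nlinarith only [hvs, hvs0, hLk]
  rcases hAB with ⟨ha, ha'⟩ | ⟨ha, ha'⟩
  · -- a-window
    have hsame := same_T p hp k m g e e' hmk he he' h1 h2 ha ha'
    set θ := p.hrem k e + p.h * ((e : ℝ) + 1 - g) with hθ
    obtain ⟨hr1, hr2⟩ := hrem_bounds p hp k e ha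
    obtain ⟨hr1', hr2'⟩ := hrem_bounds p hp k e' ha'
    have hel := ell_pos p hp
    have hfac : 0 ≤ (p.L : ℝ) ^ k * (1 - 1 / p.ell) := by
      refine mul_nonneg (by linarith) ?_
      rw [sub_nonneg, div_le_one (by linarith)]
      exact hel
    have hr0 : 0 ≤ p.hrem k e := hfac.trans hr1
    have hr0' : 0 ≤ p.hrem k e' := hfac.trans hr1'
    have hh0 : 0 ≤ p.h := by unfold Par.h; positivity
    have hge : (g : ℝ) ≤ e := by exact_mod_cast he
    have hθ0 : 0 ≤ θ := by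
      rw [hθ]
      have : 0 ≤ p.h * ((e : ℝ) + 1 - g) := mul_nonneg hh0 (by linarith)
      linarith
    have hθ1 : θ ≤ 2 * (p.L : ℝ) ^ k := by
      have h3 : ((e : ℝ) + 1 - g) ≤ p.tau m := by
        have : (e : ℝ) + 1 ≤ g + p.tau m := by exact_mod_cast h1
        linarith
      have h4 : p.h * ((e : ℝ) + 1 - g) ≤ p.h * p.tau m := mul_le_mul_of_nonneg_left h3 hh0
      rw [h_tau p hp m] at h4
      have h5 : (p.L : ℝ) ^ m ≤ (p.L : ℝ) ^ k := pow_le_pow_right₀ (L_one p hp) hmk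
      rw [hθ]; linarith
    set Y : V p.d := (x - p.vs • y1) + p.hrem k e • (v - p.vs • y2) with hY
    set Y' : V p.d := (x' - p.vs • y1') + p.hrem k e' • (v' - p.vs • y2') with hY'
    have hdec : Y - Y' = ((x - (p.h * ((e : ℝ) + 1 - g)) • v) -
        (x' - (p.h * ((e' : ℝ) + 1 - g)) • v')) + θ • (v - v') -
        (p.vs • (y1 - y1') + (p.vs * p.hrem k e) • y2 - (p.vs * p.hrem k e') • y2') := by
      have e1 : θ • (v - v') = p.hrem k e • v + (p.h * ((e : ℝ) + 1 - g)) • v -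
          (p.hrem k e' • v' + (p.h * ((e' : ℝ) + 1 - g)) • v') := by
        rw [smul_sub]
        congr 1
        · rw [hθ, add_smul]
        · rw [hsame, add_smul]
      rw [e1, hY, hY']
      simp only [smul_sub, smul_smul]
      rw [mul_comm (p.hrem k e) p.vs, mul_comm (p.hrem k e') p.vs]
      abel
    have hYb : ‖Y - Y'‖ ≤ (3 * C + 1) * p.xi k := by
      have n1 : ‖θ • (v - v')‖ ≤ 2 * (p.L : ℝ) ^ k * (C * p.rho m) := by
        rw [norm_smul, Real.norm_eq_abs, abs_of_nonneg hθ0]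
        exact mul_le_mul hθ1 hdv (norm_nonneg _) (by positivity)
      have n2 : ‖p.vs • (y1 - y1')‖ ≤ p.vs * 2 := by
        rw [norm_smul, Real.norm_eq_abs, abs_of_nonneg hvs0.le]
        refine mul_le_mul_of_nonneg_left ?_ hvs0.le
        have := norm_sub_le y1 y1'
        linarith
      have n3 : ‖(p.vs * p.hrem k e) • y2‖ ≤ p.vs * (p.L : ℝ) ^ k := by
        rw [norm_smul, Real.norm_eq_abs, abs_of_nonneg (mul_nonneg hvs0.le hr0)]
        calc p.vs * p.hrem k e * ‖y2‖ ≤ p.vs * p.hrem k e * 1 :=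
              mul_le_mul_of_nonneg_left hy2 (mul_nonneg hvs0.le hr0)
          _ = p.vs * p.hrem k e := mul_one _
          _ ≤ _ := mul_le_mul_of_nonneg_left hr2 hvs0.le
      have n4 : ‖(p.vs * p.hrem k e') • y2'‖ ≤ p.vs * (p.L : ℝ) ^ k := by
        rw [norm_smul, Real.norm_eq_abs, abs_of_nonneg (mul_nonneg hvs0.le hr0')]
        calc p.vs * p.hrem k e' * ‖y2'‖ ≤ p.vs * p.hrem k e' * 1 :=
              mul_le_mul_of_nonneg_left hy2' (mul_nonneg hvs0.le hr0')
          _ = p.vs * p.hrem k e' := mul_one _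
          _ ≤ _ := mul_le_mul_of_nonneg_left hr2' hvs0.le
      have n5 : ‖Y - Y'‖ ≤ C * p.xi m + 2 * (p.L : ℝ) ^ k * (C * p.rho m) +
          (p.vs * 2 + p.vs * (p.L : ℝ) ^ k + p.vs * (p.L : ℝ) ^ k) := by
        rw [hdec]
        refine (norm_sub_le _ _).trans (add_le_add ((norm_add_le _ _).trans (add_le_add hdP n1)) ?_)
        exact (norm_sub_le _ _).trans (add_le_add ((norm_add_le _ _).trans (add_le_add n2 n3)) n4)
      have m1 : C * p.xi m ≤ C * p.xi k := mul_le_mul_of_nonneg_left (xi_mono p hp hmk) (by linarith)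
      have m2 : 2 * (p.L : ℝ) ^ k * (C * p.rho m) ≤ 2 * C * p.xi k := by
        rw [xi_eq p k]
        have := rho_mono p hp hmk
        have h7 : 0 ≤ 2 * C * (p.L : ℝ) ^ k := by positivity
        nlinarith only [this, h7, mul_le_mul_of_nonneg_left this h7]
      have m3 := xi_one p hp k
      nlinarith only [hvs, hvs0, hvs1, n5, m1, m2, m3]
    have hNr : 3 * C + 1 + 1 < (N : ℝ) := by linarith
    have hxk : 0 < p.xi k := by linarith [xi_one p hp k]
    have hxk1 : 0 < p.xi (k + 1) := by linarith [xi_one p hp (k + 1)]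
    have hAe : p.rA k e (x - p.vs • y1) (v - p.vs • y2) = Par.rd (p.xi (k + 1)) Y := by
      rw [Par.rA, if_pos ha]
    have hAe' : p.rA k e' (x' - p.vs • y1') (v' - p.vs • y2') = Par.rd (p.xi (k + 1)) Y' := by
      rw [Par.rA, if_pos ha']
    have hme : p.rm k e (x - p.vs • y1) (v - p.vs • y2) = Par.rd (p.xi k)
        (p.xi (k + 1) • Par.toV (p.rA k e (x - p.vs • y1) (v - p.vs • y2)) - Y) := by
      rw [Par.rm, if_pos ha]
    have hme' : p.rm k e' (x' - p.vs • y1') (v' - p.vs • y2') = Par.rd (p.xi k)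
        (p.xi (k + 1) • Par.toV (p.rA k e' (x' - p.vs • y1') (v' - p.vs • y2')) - Y') := by
      rw [Par.rm, if_pos ha']
    have hAA : p.rA k e (x - p.vs • y1) (v - p.vs • y2) =
        p.rA k e' (x' - p.vs • y1') (v' - p.vs • y2') := by
      rw [hAe, hAe'] at hA ⊢
      refine rd_same N _ (3 * C + 1) hxk1 Y Y' (hYb.trans ?_) hNr hA
      exact mul_le_mul_of_nonneg_left (xi_mono p hp (Nat.le_succ k)) (by linarith)
    refine ⟨hAA, ?_⟩
    rw [hme, hme', hAA] at hm ⊢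
    refine rd_same N _ (3 * C + 1) hxk _ _ ?_ hNr hm
    rw [sub_sub_sub_cancel_left, norm_sub_rev]
    exact hYb
  · -- b-window
    have hNr : 3 * C + 1 + 1 < (N : ℝ) := by linarith
    have hrk : 0 < p.rho k := by linarith [rho_one p hp k]
    have hrk1 : 0 < p.rho (k + 1) := by linarith [rho_one p hp (k + 1)]
    set Y : V p.d := v - p.vs • y2 with hY
    set Y' : V p.d := v' - p.vs • y2' with hY'
    have hYb : ‖Y - Y'‖ ≤ (3 * C + 1) * p.rho k := by
      have hdec : Y - Y' = (v - v') - p.vs • (y2 - y2') := by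
        rw [hY, hY', smul_sub]; abel
      have n2 : ‖p.vs • (y2 - y2')‖ ≤ p.vs * 2 := by
        rw [norm_smul, Real.norm_eq_abs, abs_of_nonneg hvs0.le]
        refine mul_le_mul_of_nonneg_left ?_ hvs0.le
        have := norm_sub_le y2 y2'
        linarith
      have n5 : ‖Y - Y'‖ ≤ C * p.rho m + p.vs * 2 := by
        rw [hdec]
        exact (norm_sub_le _ _).trans (add_le_add hdv n2)
      have m1 : C * p.rho m ≤ C * p.rho k :=
        mul_le_mul_of_nonneg_left (rho_mono p hp hmk) (by linarith)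
      have m3 := rho_one p hp k
      nlinarith only [hvs0, hvs1, n5, m1, m3, hC, hrk]
    have hAe : ∀ z, p.rA k e z Y = Par.rd (p.rho (k + 1)) Y := by
      intro z; rw [Par.rA, if_neg ha]
    have hAe' : ∀ z, p.rA k e' z Y' = Par.rd (p.rho (k + 1)) Y' := by
      intro z; rw [Par.rA, if_neg ha']
    have hme : ∀ z, p.rm k e z Y = Par.rd (p.rho k)
        (p.rho (k + 1) • Par.toV (p.rA k e z Y) - Y) := by
      intro z; rw [Par.rm, if_neg ha]
    have hme' : ∀ z, p.rm k e' z Y' = Par.rd (p.rho k)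
        (p.rho (k + 1) • Par.toV (p.rA k e' z Y') - Y') := by
      intro z; rw [Par.rm, if_neg ha']
    have hAA : p.rA k e (x - p.vs • y1) Y = p.rA k e' (x' - p.vs • y1') Y' := by
      rw [hAe, hAe'] at hA ⊢
      refine rd_same N _ (3 * C + 1) hrk1 Y Y' (hYb.trans ?_) hNr hA
      exact mul_le_mul_of_nonneg_left (rho_mono p hp (Nat.le_succ k)) (by linarith)
    refine ⟨hAA, ?_⟩
    rw [hme, hme', hAA] at hm ⊢
    refine rd_same N _ (3 * C + 1) hrk _ _ ?_ hNr hm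
    rw [sub_sub_sub_cancel_left, norm_sub_rev]
    exact hYb

end KDB.I.D11
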